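import Mathlib
import Pool.Agent.RadSub.Main
import Pool.Agent.RadSub.Transfer

set_option autoImplicit false

/-!
# Rademacher averages of a map and its inverse adjoint

There are infinitely many `n` and `n`-dimensional subspaces `X` of `ℓ_∞^M`, with `M` at most
`3 n log n`, for which `r_e(u) r_η((u⁻¹)^*)` is at least `c (log n)^(1/4) n` for every linear
isomorphism `u` of Euclidean space onto `X` and all orthonormal bases `e` and `η`.
-/

namespace Pool.Agent.Results.MP_6acab6_an.SupSubspace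

open Pool.Agent.H35 Pool.Agent.RadSub

/-- Euclidean space of dimension `n`. -/
abbrev E (n : ℕ) : Type := EuclideanSpace ℝ (Fin n)

/-- The average of `‖∑ ± y i‖` over all `2^n` choices of signs. For `y i = v (e i)` this is the
number `r_e(v)` of the problem. -/
noncomputable def radAvg {n : ℕ} {Y : Type} [NormedAddCommGroup Y] [NormedSpace ℝ Y]
    (y : Fin n → Y) : ℝ :=
  (∑ ε : Fin n → Bool, ‖∑ i, (if ε i then (1 : ℝ) else -1) • y i‖) / 2 ^ n

/-- `w` is the adjoint `(u⁻¹)^*` of the inverse of `u`, with values in the dual space of `X` with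
its dual norm: `w y` is the functional on `X` whose value at `u z` is `⟨y, z⟩`. -/
def IsAdjInv {n : ℕ} {X : Type} [NormedAddCommGroup X] [NormedSpace ℝ X]
    (u : E n ≃ₗ[ℝ] X) (w : E n → StrongDual ℝ X) : Prop :=
  ∀ y z : E n, w y (u z) = inner ℝ y z

/-- For every linear isomorphism `u` of Euclidean space onto `X` and all orthonormal bases
`e` and `η` the product `r_e(u) r_η((u⁻¹)^*)` exceeds `t`. -/
def ProductAbove (n : ℕ) (X : Type) [NormedAddCommGroup X] [NormedSpace ℝ X] (t : ℝ) : Prop :=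
  ∀ (u : E n ≃ₗ[ℝ] X) (w : E n → StrongDual ℝ X), IsAdjInv u w →
    ∀ e η : OrthonormalBasis (Fin n) ℝ (E n),
      t < radAvg (fun i => u (e i)) * radAvg (fun i => w (η i))

/-- On a finite-dimensional space the adjoint of the inverse exists (this is not used below; it
shows that the definition of `ProductAbove` is not vacuous). -/
theorem exists_isAdjInv {n : ℕ} {X : Type} [NormedAddCommGroup X] [NormedSpace ℝ X]
    [FiniteDimensional ℝ X] (u : E n ≃ₗ[ℝ] X) : ∃ w : E n → StrongDual ℝ X, IsAdjInv u w := by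
  refine ⟨fun v => (innerSL ℝ v).comp (LinearMap.toContinuousLinearMap u.symm.toLinearMap), ?_⟩
  intro y z
  change inner ℝ y (u.symm (u z)) = _
  rw [LinearEquiv.symm_apply_apply]

/-- The main inequality for the subspace which is the range of the embedding. -/
theorem subspace_form (C : ℝ) (n K : ℕ) (g : Fin K → Fin n → ℝ)
    (hg : ∀ (U W : Matrix (Fin n) (Fin n) ℝ), |U.det| * |W.det| = 1 →
      ∀ h2 : (Fin n → Bool) → ℝ, (∀ x, Ng g x ≤ 1 → ∀ ε, pair (W.mulVec x) ε ≤ h2 ε) →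
      C * n < avg (fun ε => Ng g (Usg U ε)) * avg h2) :
    ProductAbove n (LinearMap.range (embed g)) (C * (n : ℝ)) := by
  classical
  intro u w hw e η
  set Φ : (Fin n → ℝ) ≃ₗ[ℝ] (LinearMap.range (embed g)) :=
    LinearEquiv.ofInjective (embed g) (embed_injective g) with hΦ
  have hnΦ : ∀ x, ‖Φ x‖ = Ng g x := by
    intro x
    rw [← norm_embed g x]
    rfl
  have key := iso_form C n K g hg (u.trans Φ.symm) e η
    (fun ε => ‖∑ i, (if ε i then (1:ℝ) else -1) • w (η i)‖) ?_
  · have e1 : ∀ ε : Fin n → Bool,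
        Ng g (∑ i, (if ε i then (1:ℝ) else -1) • (u.trans Φ.symm) (e i))
          = ‖∑ i, (if ε i then (1 : ℝ) else -1) • u (e i)‖ := by
      intro ε
      rw [← hnΦ]
      congr 1
      simp only [map_sum, map_smul, LinearEquiv.trans_apply, LinearEquiv.apply_symm_apply]
    unfold radAvg
    simp only [← e1]
    exact key
  · intro x hx ε
    have h1 : inner ℝ (∑ i, (if ε i then (1:ℝ) else -1) • η i) ((u.trans Φ.symm).symm x)
        = (∑ i, (if ε i then (1:ℝ) else -1) • w (η i)) (Φ x) := by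
      have h0 : (u.trans Φ.symm).symm x = u.symm (Φ x) := rfl
      rw [h0, sum_inner, sum_apply]
      refine Finset.sum_congr rfl fun i _ => ?_
      rw [smul_apply, real_inner_smul_left, smul_eq_mul, ← hw (η i) (u.symm (Φ x)),
        LinearEquiv.apply_symm_apply]
    rw [h1]
    refine (le_abs_self _).trans ?_
    refine ((∑ i, (if ε i then (1:ℝ) else -1) • w (η i)).le_opNorm (Φ x)).trans ?_
    rw [hnΦ]
    exact mul_le_of_le_one_right (norm_nonneg _) hx

/-- There is `c > 0` such that for infinitely many `n` some `n`-dimensional subspace `X` of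
`ℓ_∞^M`, with `M ≤ 3 n log n`, satisfies `r_e(u) r_η((u⁻¹)^*) ≥ c (log n)^(1/4) n` for every
linear isomorphism `u` of Euclidean space onto `X` and all orthonormal bases `e`, `η`. -/
theorem result : ∃ c : ℝ, 0 < c ∧ ∀ n₀ : ℕ, ∃ n : ℕ, n₀ ≤ n ∧ 2 ≤ n ∧ ∃ M : ℕ,
    (M : ℝ) ≤ 3 * n * Real.log n ∧ ∃ X : Submodule ℝ (Fin M → ℝ), Module.finrank ℝ X = n ∧
      ProductAbove n X (c * Real.log n ^ (1 / 4 : ℝ) * n) := by
  refine ⟨1 / 2 ^ 33, by positivity, fun n₀ => ?_⟩
  obtain ⟨p, hp⟩ : ∃ p : ℕ, p = n₀ + 2 ^ 33 := ⟨_, rfl⟩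
  have hpn : n₀ ≤ p := by omega
  have hp33 : (2 : ℝ) ^ 33 ≤ p := by
    have : 2 ^ 33 ≤ p := by omega
    exact_mod_cast this
  have hp1 : 1 ≤ p := by omega
  obtain ⟨m, hm⟩ : ∃ m, m = p ^ 4 := ⟨_, rfl⟩
  obtain ⟨n, hn⟩ : ∃ n, n = m * 4 ^ m := ⟨_, rfl⟩
  have hpm : p ≤ m := by
    rw [hm]
    exact Nat.le_self_pow (by norm_num) p
  have hm1 : 1 ≤ m := hp1.trans hpm
  have hmn : m * 4 ≤ n := by
    rw [hn]
    apply Nat.mul_le_mul_left
    calc 4 = 4 ^ 1 := (pow_one 4).symm
      _ ≤ 4 ^ m := Nat.pow_le_pow_right (by norm_num) hm1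
  have hmR : (1 : ℝ) ≤ m := by exact_mod_cast hm1
  have hmpos : (0 : ℝ) < m := by linarith
  have hlogn : Real.log n = Real.log m + m * Real.log 4 := by
    rw [hn]
    push_cast
    rw [Real.log_mul hmpos.ne' (by positivity), Real.log_pow]
  have hlog4 : 1 ≤ Real.log 4 := by
    rw [Real.le_log_iff_exp_le (by norm_num)]
    linarith [Real.exp_one_lt_three]
  have hlog4' : Real.log 4 ≤ 3 := by
    have := Real.log_le_sub_one_of_pos (show (0:ℝ) < 4 by norm_num)
    linarith
  have hlogm : Real.log m ≤ m := by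
    have := Real.log_le_sub_one_of_pos hmpos
    linarith
  have hlogm0 : 0 ≤ Real.log m := Real.log_nonneg hmR
  have hml : (m : ℝ) ≤ Real.log n := by
    rw [hlogn]
    nlinarith
  have hlu : Real.log n ≤ (2 * (p : ℝ)) ^ 4 := by
    rw [hlogn]
    have e1 : (2 * (p : ℝ)) ^ 4 = 16 * m := by rw [hm]; push_cast; ring
    rw [e1]
    nlinarith
  have hp0 : (0 : ℝ) ≤ p := Nat.cast_nonneg p
  have hl0 : 0 ≤ Real.log n := hmpos.le.trans hml
  have hroot : Real.log n ^ (1 / 4 : ℝ) ≤ 2 * p := by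
    calc Real.log n ^ (1 / 4 : ℝ) ≤ ((2 * (p : ℝ)) ^ 4) ^ (1 / 4 : ℝ) :=
          Real.rpow_le_rpow hl0 hlu (by norm_num)
      _ = 2 * p := by
          rw [← Real.rpow_natCast, ← Real.rpow_mul (by positivity)]
          norm_num
  set C : ℝ := p / (2 ^ 22 * 336) - 2 with hC
  have hC0 : 0 ≤ C := by
    rw [hC, sub_nonneg, le_div_iff₀ (by norm_num)]
    linarith
  have hCc : 1 / 2 ^ 33 * (2 * (p : ℝ)) ≤ C := by
    rw [hC]
    linarith
  obtain ⟨g, -, hg⟩ := main_matrix_rate C p (by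
    rw [abs_of_nonneg hC0, hC]
    have : (2:ℝ) ^ 22 * (336 * (p / (2 ^ 22 * 336) - 2 + 1) + 2) = p - 2 ^ 22 * 334 := by
      field_simp
      ring
    rw [this]
    norm_num) m n (n * m) hm hn rfl
  refine ⟨n, by omega, by omega, n + 2 * (n * m), ?_, LinearMap.range (embed g), ?_, ?_⟩
  · push_cast
    have hn0 : (0 : ℝ) ≤ n := Nat.cast_nonneg n
    have : (n : ℝ) * 1 ≤ n * m := by gcongr
    have h2 : (n : ℝ) * m ≤ n * Real.log n := by gcongr
    nlinarith
  · rw [LinearMap.finrank_range_of_inj (embed_injective g)]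
    simp
  · intro u w hw e η
    refine lt_of_le_of_lt ?_ (subspace_form C n (2 * (n * m)) g hg u w hw e η)
    have hn0 : (0 : ℝ) ≤ n := Nat.cast_nonneg n
    gcongr
    calc 1 / 2 ^ 33 * Real.log n ^ (1 / 4 : ℝ) ≤ 1 / 2 ^ 33 * (2 * (p : ℝ)) := by gcongr
      _ ≤ C := hCc

end Pool.Agent.Results.MP_6acab6_an.SupSubspace
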